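import Pool.Agent.K4H14.FG.Amp2

/-!
Equidistribution in the classes of most large moduli gives equidistribution for all small moduli:
the transfer.
-/

set_option autoImplicit false

namespace Pool.Agent.K4H14.FG

open Finset Filter

/-- a large modulus: the share of a few classes -/
theorem big_cls {X : ℕ} {x L u δ : ℝ} (hx : x = X) (hLx : L = Real.log X) (hL : 24 ≤ L)
    (hδ0 : 0 < δ) (hu : 1 ≤ u)
    (hx0 : 0 < x) (h2 : 100 * L ^ 2 ≤ δ * u) (s : ℕ) (hs1 : 1 ≤ s) (hsX : s ≤ X)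
    (hs : x / u ^ 8 ≤ s) : x / u ^ 32 ≤ δ / 4 * cls s := by
  have hu0 : 0 < u := by linarith
  have h3 : x / u ^ 32 ≤ x / u ^ 8 / u := by
    rw [div_div]
    apply div_le_div_of_nonneg_left hx0.le (by positivity)
    calc u ^ 8 * u = u ^ 9 := by ring
      _ ≤ u ^ 32 := pow_le_pow_right₀ hu (by norm_num)
  have h4 : x / u ^ 8 / u ≤ s / u := div_le_div_of_nonneg_right hs hu0.le
  refine h3.trans (h4.trans ?_)
  rw [div_le_iff₀ hu0]
  have hlog : Real.log s ≤ L := by
    rw [hLx]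
    exact Real.log_le_log (by exact_mod_cast hs1) (by exact_mod_cast hsX)
  have h5 := cls_ge s hs1 L hlog (by linarith)
  rw [div_le_iff₀ (by positivity)] at h5
  have h6 : (cls s : ℝ) / 3 * (4 * L ^ 2) ≤ (cls s : ℝ) / 3 * (4 * (δ * u / 100)) := by
    apply mul_le_mul_of_nonneg_left _ (by positivity)
    linarith
  have h7 : 0 ≤ δ * u * (cls s : ℝ) := by positivity
  have h8 : (cls s : ℝ) / 3 * (4 * (δ * u / 100)) = δ * u * (cls s : ℝ) / 75 := by ring
  have h9 : δ / 4 * (cls s : ℝ) * u = δ * u * (cls s : ℝ) / 4 := by ring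
  linarith

/-- a large modulus: the error terms -/
theorem big_err {x u δ G : ℝ} (hu : 2 ≤ u) (hux : u ^ 64 ≤ x) (hG : 100 * x ≤ δ * u * G)
    (q : ℝ) (hq1 : x / u ^ 8 ≤ q) (hq2 : q ≤ x) :
    x / u ^ 32 * (x / q + 1) + Real.sqrt q ≤ δ / 4 * (G / u) := by
  have hu0 : 0 < u := by linarith
  have hx0 : 0 < x := lt_of_lt_of_le (by positivity) hux
  have hq0 : 0 < q := lt_of_lt_of_le (by positivity) hq1
  have h1 : x / q ≤ u ^ 8 := by
    rw [div_le_iff₀ (by positivity)] at hq1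
    rw [div_le_iff₀ hq0]
    linarith
  have h2 : (1 : ℝ) ≤ u ^ 8 := one_le_pow₀ (by linarith)
  have h3 : x / u ^ 32 * (x / q + 1) ≤ 2 * (x / u ^ 3) := by
    calc x / u ^ 32 * (x / q + 1) ≤ x / u ^ 32 * (2 * u ^ 8) := by
          apply mul_le_mul_of_nonneg_left _ (by positivity)
          linarith
      _ = 2 * (x / u ^ 24) := by
          field_simp
      _ ≤ 2 * (x / u ^ 3) := by
          apply mul_le_mul_of_nonneg_left _ (by norm_num)
          apply div_le_div_of_nonneg_left hx0.le (by positivity)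
          exact pow_le_pow_right₀ (by linarith) (by norm_num)
  have h4 : Real.sqrt q ≤ x / u ^ 3 := by
    have h5 : u ^ 32 ≤ Real.sqrt x := by
      apply Real.le_sqrt_of_sq_le
      calc (u ^ 32) ^ 2 = u ^ 64 := by ring
        _ ≤ x := hux
    have h6 : Real.sqrt x * u ^ 32 ≤ x := by
      calc Real.sqrt x * u ^ 32 ≤ Real.sqrt x * Real.sqrt x :=
            mul_le_mul_of_nonneg_left h5 (Real.sqrt_nonneg x)
        _ = x := Real.mul_self_sqrt hx0.le
    calc Real.sqrt q ≤ Real.sqrt x := Real.sqrt_le_sqrt hq2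
      _ ≤ x / u ^ 32 := by
          rw [le_div_iff₀ (by positivity)]
          exact h6
      _ ≤ x / u ^ 3 := by
          apply div_le_div_of_nonneg_left hx0.le (by positivity)
          exact pow_le_pow_right₀ (by linarith) (by norm_num)
  have h5 : 25 * (x / u ^ 2) ≤ δ / 4 * (G / u) := by
    have h6 : δ / 4 * (G / u) = δ * u * G / (4 * u ^ 2) := by
      field_simp
    have h7 : 25 * (x / u ^ 2) = 100 * x / (4 * u ^ 2) := by
      field_simp
      norm_num
    rw [h6, h7]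
    exact div_le_div_of_nonneg_right hG (by positivity)
  have h6 : x / u ^ 3 ≤ x / u ^ 2 := by
    apply div_le_div_of_nonneg_left hx0.le (by positivity)
    exact pow_le_pow_right₀ (by linarith) (by norm_num)
  have h7 : 0 ≤ x / u ^ 2 := by positivity
  linarith

/-- a good multiple of a small modulus -/
theorem good_multiple {B X : ℕ} {x L u : ℝ} (hx : x = X) (hLx : L = Real.log X) (hu : 2 ≤ u)
    (hux : u ^ 64 ≤ x) (hL : 24 ≤ L) (hLB : 3 * L ^ B ≤ u) (E : Finset ℕ)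
    (hE : (E.card : ℝ) ≤ x / u ^ 32) (q : ℕ) (hq : 1 ≤ q) (hqu : (q : ℝ) ≤ u) :
    ∃ t : ℕ, x / u ^ 8 ≤ ((1 + q * t : ℕ) : ℝ) ∧ q * (1 + q * t) ∈ mo B X ∧
      q * (1 + q * t) ∉ E := by
  classical
  have hu0 : 0 < u := by linarith
  have hu1 : 1 ≤ u := by linarith
  have hx0 : 0 < x := lt_of_lt_of_le (by positivity) hux
  have hu4 : (4 : ℝ) ≤ u ^ 4 := by
    calc (4 : ℝ) ≤ 2 ^ 4 := by norm_num
      _ ≤ u ^ 4 := pow_le_pow_left₀ (by norm_num) hu 4
  set T : ℕ := ⌊x / u ^ 4⌋₊ with hT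
  have hTle : (T : ℝ) ≤ x / u ^ 4 := Nat.floor_le (by positivity)
  have hTlt : x / u ^ 4 < T + 1 := Nat.lt_floor_add_one _
  have hbig : (4 : ℝ) ≤ x / u ^ 4 := by
    rw [le_div_iff₀ (by positivity)]
    calc 4 * u ^ 4 ≤ u ^ 4 * u ^ 4 := mul_le_mul_of_nonneg_right hu4 (by positivity)
      _ = u ^ 8 := by ring
      _ ≤ u ^ 64 := pow_le_pow_right₀ hu1 (by norm_num)
      _ ≤ x := hux
  have h8 : x / u ^ 8 ≤ x / u ^ 4 / 4 := by
    rw [div_div]
    apply div_le_div_of_nonneg_left hx0.le (by positivity)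
    calc u ^ 4 * 4 ≤ u ^ 4 * u ^ 4 := mul_le_mul_of_nonneg_left hu4 (by positivity)
      _ = u ^ 8 := by ring
  have hT8 : x / u ^ 8 ≤ T := by linarith
  have h32 : x / u ^ 32 < T := by
    have h9 : x / u ^ 32 ≤ x / u ^ 8 := by
      apply div_le_div_of_nonneg_left hx0.le (by positivity)
      exact pow_le_pow_right₀ hu1 (by norm_num)
    linarith
  have hmo : ∀ t ∈ Ico T (2 * T), q * (1 + q * t) ∈ mo B X := by
    intro t ht
    rw [mem_Ico] at ht
    have ht2 : (t : ℝ) ≤ 2 * T := by exact_mod_cast ht.2.le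
    have h1 : ((q * (1 + q * t) : ℕ) : ℝ) ≤ 3 * (x / u ^ 2) := by
      push_cast
      have h2 : (q : ℝ) * t ≤ u * (2 * (x / u ^ 4)) := by
        apply mul_le_mul hqu (by linarith) (Nat.cast_nonneg _) hu0.le
      have h3 : (q : ℝ) * (1 + q * t) ≤ u * (1 + u * (2 * (x / u ^ 4))) := by
        apply mul_le_mul hqu (by linarith) (by positivity) hu0.le
      have h4 : u * (1 + u * (2 * (x / u ^ 4))) = u + 2 * (x / u ^ 2) := by
        field_simp
      have h5 : u ≤ x / u ^ 2 := by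
        rw [le_div_iff₀ (by positivity)]
        calc u * u ^ 2 = u ^ 3 := by ring
          _ ≤ u ^ 64 := pow_le_pow_right₀ hu1 (by norm_num)
          _ ≤ x := hux
      linarith
    have hLB0 : (1 : ℝ) ≤ L ^ B := one_le_pow₀ (by linarith)
    have h2 : ((q * (1 + q * t) : ℕ) : ℝ) * L ^ B ≤ x := by
      calc ((q * (1 + q * t) : ℕ) : ℝ) * L ^ B ≤ 3 * (x / u ^ 2) * L ^ B :=
            mul_le_mul_of_nonneg_right h1 (by positivity)
        _ = x / u ^ 2 * (3 * L ^ B) := by ring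
        _ ≤ x / u ^ 2 * u := mul_le_mul_of_nonneg_left hLB (by positivity)
        _ = x / u := by field_simp
        _ ≤ x := div_le_self hx0.le hu1
    unfold mo
    rw [mem_filter, mem_Icc]
    refine ⟨⟨Nat.mul_pos hq (by omega), ?_⟩, ?_⟩
    · have h3 : ((q * (1 + q * t) : ℕ) : ℝ) ≤ x := by
        refine le_trans ?_ h2
        exact le_mul_of_one_le_right (Nat.cast_nonneg _) hLB0
      rw [hx] at h3
      exact_mod_cast h3
    · rw [← hLx, ← hx]
      exact h2
  have hinj : Function.Injective (fun t : ℕ => q * (1 + q * t)) := by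
    intro t t' h
    simp only at h
    have h1 := Nat.eq_of_mul_eq_mul_left hq h
    have h2 : q * t = q * t' := by omega
    exact Nat.eq_of_mul_eq_mul_left hq h2
  by_contra hcon
  push Not at hcon
  have hsub : (Ico T (2 * T)).image (fun t : ℕ => q * (1 + q * t)) ⊆ E := by
    intro y hy
    rw [mem_image] at hy
    obtain ⟨t, ht, rfl⟩ := hy
    apply hcon t _ (hmo t ht)
    rw [mem_Ico] at ht
    refine hT8.trans ?_
    have : T ≤ 1 + q * t := by nlinarith [ht.1, hq]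
    exact_mod_cast this
  have h1 := card_le_card hsub
  rw [card_image_of_injective _ hinj, Nat.card_Ico] at h1
  have h2 : (T : ℝ) ≤ E.card := by exact_mod_cast (by omega : T ≤ E.card)
  linarith

/-- the sum over the moduli -/
theorem sum_split {B X : ℕ} {x u : ℝ} (hx : x = X) (hu : 3 ≤ u) (hx0 : 0 < x)
    (f d : ℕ → ℝ) (E : Finset ℕ) (hEm : E ⊆ mo B X) (hE : (E.card : ℝ) ≤ x / u ^ 32)
    (hd : ∑ q ∈ mo B X, d q < x ^ 2 / u ^ 64) (hd0 : ∀ q, 0 ≤ d q)
    (hf : ∀ q ∈ mo B X, f q ≤ q) (hfd : ∀ q ∈ mo B X, q ∉ E → x / u ^ 8 ≤ q → f q ≤ d q) :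
    ∑ q ∈ mo B X, f q < x ^ 2 / u := by
  classical
  have hu0 : 0 < u := by linarith
  have hu1 : 1 ≤ u := by linarith
  have h1 : ∀ q ∈ mo B X, f q ≤ d q + ((if (q : ℝ) < x / u ^ 8 then x / u ^ 8 else 0) +
      (if q ∈ E then x else 0)) := by
    intro q hq
    have h0 := hd0 q
    have hfq := hf q hq
    have hqx : (q : ℝ) ≤ x := by
      unfold mo at hq
      rw [mem_filter, mem_Icc] at hq
      rw [hx]
      exact_mod_cast hq.1.2
    by_cases h2 : (q : ℝ) < x / u ^ 8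
    · rw [if_pos h2]
      have h3 : (0 : ℝ) ≤ if q ∈ E then x else 0 := by split_ifs <;> linarith
      linarith
    · rw [if_neg h2]
      by_cases h3 : q ∈ E
      · rw [if_pos h3]
        linarith
      · rw [if_neg h3]
        have := hfd q hq h3 (not_lt.1 h2)
        linarith
  refine lt_of_le_of_lt (sum_le_sum h1) ?_
  rw [sum_add_distrib, sum_add_distrib]
  have h2 : ∑ q ∈ mo B X, (if (q : ℝ) < x / u ^ 8 then x / u ^ 8 else 0) ≤ x ^ 2 / u ^ 16 := by
    rw [← sum_filter, sum_const, nsmul_eq_mul]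
    have h3 : (((mo B X).filter (fun q : ℕ => (q : ℝ) < x / u ^ 8)).card : ℝ) ≤ x / u ^ 8 := by
      have h4 : (mo B X).filter (fun q : ℕ => (q : ℝ) < x / u ^ 8) ⊆ Icc 1 ⌊x / u ^ 8⌋₊ := by
        intro q hq
        rw [mem_filter] at hq
        have h5 := hq.1
        unfold mo at h5
        rw [mem_filter, mem_Icc] at h5
        rw [mem_Icc]
        exact ⟨h5.1.1, Nat.le_floor hq.2.le⟩
      have h5 := card_le_card h4
      rw [Nat.card_Icc] at h5
      have h6 : ((⌊x / u ^ 8⌋₊ : ℕ) : ℝ) ≤ x / u ^ 8 := Nat.floor_le (by positivity)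
      refine le_trans ?_ h6
      exact_mod_cast (by omega : _ ≤ ⌊x / u ^ 8⌋₊)
    calc (((mo B X).filter (fun q : ℕ => (q : ℝ) < x / u ^ 8)).card : ℝ) * (x / u ^ 8) ≤
        x / u ^ 8 * (x / u ^ 8) := mul_le_mul_of_nonneg_right h3 (by positivity)
      _ = x ^ 2 / u ^ 16 := by
          field_simp
  have h3 : ∑ q ∈ mo B X, (if q ∈ E then x else 0) ≤ x ^ 2 / u ^ 32 := by
    rw [← sum_filter, sum_const, nsmul_eq_mul]
    have h4 : (mo B X).filter (fun q : ℕ => q ∈ E) ⊆ E := by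
      intro q hq
      rw [mem_filter] at hq
      exact hq.2
    have h5 : (((mo B X).filter (fun q : ℕ => q ∈ E)).card : ℝ) ≤ x / u ^ 32 := by
      refine le_trans ?_ hE
      exact_mod_cast card_le_card h4
    calc (((mo B X).filter (fun q : ℕ => q ∈ E)).card : ℝ) * x ≤ x / u ^ 32 * x :=
          mul_le_mul_of_nonneg_right h5 hx0.le
      _ = x ^ 2 / u ^ 32 := by ring
  have h4 : ∀ n : ℕ, 2 ≤ n → x ^ 2 / u ^ n ≤ x ^ 2 / u / 3 := by
    intro n hn
    rw [div_div]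
    apply div_le_div_of_nonneg_left (by positivity) (by positivity)
    calc u * 3 ≤ u * u := mul_le_mul_of_nonneg_left hu hu0.le
      _ = u ^ 2 := by ring
      _ ≤ u ^ n := pow_le_pow_right₀ hu1 hn
  have h5 := h4 16 (by norm_num)
  have h6 := h4 32 (by norm_num)
  have h7 := h4 64 (by norm_num)
  linarith

theorem transfer (B : ℕ) (ε : ℝ) (hε : 0 < ε) (hε1 : ε ≤ 1) (δ : ℝ) (hδ0 : 0 < δ)
    (hδ : δ ≤ 1 / 8) :
    ∀ᶠ X : ℕ in atTop, ∀ F : ℕ → ℝ,
      (∑ q ∈ mo B X, ((dv δ (F q) X q).card : ℝ)) < (X : ℝ) ^ (2 - ε) →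
      0 < cnt X 1 0 ∧
      (∀ q a : ℕ, 1 ≤ q → (q : ℝ) ≤ (X : ℝ) ^ (ε / 64) → Nat.Coprime (a ^ 2 + 1) q →
        |(cnt X q a : ℝ) - cnt X 1 0 / cls q| ≤ 5 * δ * (cnt X 1 0 / cls q)) ∧
      (∑ q ∈ mo B X, ((bd (5 * δ) X q).card : ℝ)) < (X : ℝ) ^ (2 - ε / 64) := by
  classical
  have hlog : Tendsto (fun X : ℕ => Real.log X) atTop atTop :=
    Real.tendsto_log_atTop.comp tendsto_natCast_atTop_atTop
  filter_upwards [hlog.eventually_ge_atTop 24, polylog (B + 3) (100 / δ) (ε / 64) (by positivity),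
    eventually_ge_atTop 1, lowF B ε hε] with X hL hp hX1 hlow F hsum
  have hxr : (1 : ℝ) ≤ X := by exact_mod_cast hX1
  obtain ⟨x, hx⟩ : ∃ x : ℝ, x = X := ⟨_, rfl⟩
  obtain ⟨L, hLx⟩ : ∃ L : ℝ, L = Real.log X := ⟨_, rfl⟩
  obtain ⟨u, hu⟩ : ∃ u : ℝ, u = (X : ℝ) ^ (ε / 64) := ⟨_, rfl⟩
  have hG := hlow (fun q => dv δ (F q) X q)
    (fun q hq => dv_card δ (F q) hδ0.le (by linarith) X q hq) hsum
  rw [← hLx] at hL hp hG
  rw [← hx] at hG
  rw [← hu] at hp
  have hx1 : 1 ≤ x := by rw [hx]; exact hxr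
  have hx0 : 0 < x := by linarith
  have hL0 : 0 < L := by linarith
  have hL1 : 1 ≤ L := by linarith
  have hu64 : u ^ 64 = (X : ℝ) ^ ε := by
    rw [hu, ← Real.rpow_natCast, ← Real.rpow_mul (by linarith)]
    congr 1
    push_cast
    ring
  have hux : u ^ 64 ≤ x := by
    rw [hu64, hx]
    calc (X : ℝ) ^ ε ≤ (X : ℝ) ^ (1 : ℝ) := Real.rpow_le_rpow_of_exponent_le hxr hε1
      _ = X := Real.rpow_one _
  have hu00 : 0 < u := by rw [hu]; positivity
  have hpow1 : (X : ℝ) ^ (2 - ε) = x ^ 2 / u ^ 64 := by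
    rw [Real.rpow_sub (by linarith), Real.rpow_two, hu64, hx]
  have hpow2 : (X : ℝ) ^ (2 - ε / 64) = x ^ 2 / u := by
    rw [Real.rpow_sub (by linarith), Real.rpow_two, hu, hx]
  have hbase : 100 * L ^ (B + 3) ≤ δ * u := by
    have h1 : L ^ (B + 3) ≤ (2 * L) ^ (B + 3) := pow_le_pow_left₀ hL0.le (by linarith) _
    have h2 : 100 / δ * L ^ (B + 3) ≤ u := by
      refine le_trans ?_ hp
      exact mul_le_mul_of_nonneg_left h1 (by positivity)
    have h3 : δ * (100 / δ * L ^ (B + 3)) ≤ δ * u := mul_le_mul_of_nonneg_left h2 hδ0.le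
    have h4 : δ * (100 / δ * L ^ (B + 3)) = 100 * L ^ (B + 3) := by
      field_simp
    linarith
  have hLk : ∀ k : ℕ, k ≤ B + 3 → 100 * L ^ k ≤ δ * u := by
    intro k hk
    refine le_trans ?_ hbase
    apply mul_le_mul_of_nonneg_left _ (by norm_num)
    exact pow_le_pow_right₀ hL1 hk
  have hδu : δ * u ≤ u := by
    have := mul_le_mul_of_nonneg_right (by linarith : δ ≤ 1) hu00.le
    linarith
  have hu100 : 100 ≤ u := by
    have := hLk 0 (by omega)
    rw [pow_zero] at this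
    linarith
  have hL2 := hLk 2 (by omega)
  have hLB := hLk B (by omega)
  have hLB1 : (1 : ℝ) ≤ L ^ B := one_le_pow₀ hL1
  have hGpos : 0 < (cnt X 1 0 : ℝ) := lt_of_lt_of_le (by positivity) hG
  have hG2 : 100 * x ≤ δ * u * cnt X 1 0 := by
    rw [div_le_iff₀ (by positivity)] at hG
    have h1 := mul_le_mul_of_nonneg_left hbase hGpos.le
    linarith
  have hGn : 0 < cnt X 1 0 := by exact_mod_cast hGpos
  -- the bad moduli
  set E : Finset ℕ := (mo B X).filter (fun q => ¬ ((dv δ (F q) X q).card : ℝ) ≤ x / u ^ 32) with hEd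
  rw [hpow1] at hsum
  have hE : (E.card : ℝ) ≤ x / u ^ 32 := by
    have h1 : (E.card : ℝ) * (x / u ^ 32) ≤ ∑ q ∈ mo B X, ((dv δ (F q) X q).card : ℝ) := by
      have h2 := card_nsmul_le_sum E (fun q => ((dv δ (F q) X q).card : ℝ)) (x / u ^ 32) (by
        intro q hq
        rw [hEd, mem_filter] at hq
        exact (not_le.1 hq.2).le)
      rw [nsmul_eq_mul] at h2
      exact h2.trans (sum_le_sum_of_subset_of_nonneg (filter_subset _ _)
        (fun _ _ _ => Nat.cast_nonneg _))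
    have h2 : (E.card : ℝ) * (x / u ^ 32) < x / u ^ 32 * (x / u ^ 32) := by
      refine lt_of_le_of_lt h1 (hsum.trans_le (le_of_eq ?_))
      field_simp
    exact (lt_of_mul_lt_mul_right h2 (by positivity)).le
  have hbig : ∀ q ∈ mo B X, q ∉ E → x / u ^ 8 ≤ q →
      ((dv δ (F q) X q).card : ℝ) ≤ x / u ^ 32 ∧ bd (4 * δ) X q ⊆ dv δ (F q) X q := by
    intro q hq hqE hqx
    have hq' := hq
    unfold mo at hq'
    rw [mem_filter, mem_Icc] at hq'
    have h1 : ((dv δ (F q) X q).card : ℝ) ≤ x / u ^ 32 := by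
      by_contra hc
      exact hqE (by rw [hEd, mem_filter]; exact ⟨hq, hc⟩)
    have hqX : (q : ℝ) ≤ x := by rw [hx]; exact_mod_cast hq'.1.2
    have h2 := big_err (by linarith : (2 : ℝ) ≤ u) hux hG2 q hqx hqX
    refine ⟨h1, bd_sub_dv δ (F q) hδ0 hδ X q hq'.1.1 hGn ?_ ?_⟩
    · exact h1.trans (big_cls hx hLx hL hδ0 (by linarith) hx0 hL2 q hq'.1.1 hq'.1.2 hqx)
    · rw [← hx]
      have h3 : (0 : ℝ) ≤ x / q + 1 := by positivity
      have h4 := mul_le_mul_of_nonneg_right h1 h3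
      have h5 : δ / 4 * ((cnt X 1 0 : ℝ) / u) ≤ δ / 4 * cnt X 1 0 := by
        apply mul_le_mul_of_nonneg_left _ (by positivity)
        exact div_le_self hGpos.le (by linarith)
      linarith
  refine ⟨hGn, ?_, ?_⟩
  · intro q a hq hqu hcop
    rw [← hu] at hqu
    obtain ⟨t, ht1, ht2, ht3⟩ := good_multiple hx hLx (by linarith) hux hL (by linarith) E hE q hq hqu
    have hs1 : 1 ≤ 1 + q * t := by omega
    have hqs : 1 + q * t ≤ q * (1 + q * t) := Nat.le_mul_of_pos_left _ hq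
    have hqsr : ((1 + q * t : ℕ) : ℝ) ≤ ((q * (1 + q * t) : ℕ) : ℝ) := by exact_mod_cast hqs
    have hmem := ht2
    unfold mo at hmem
    rw [mem_filter, mem_Icc] at hmem
    obtain ⟨h1, h2⟩ := hbig _ ht2 ht3 (ht1.trans hqsr)
    have hX' : ((q * (1 + q * t) : ℕ) : ℝ) ≤ x := by rw [hx]; exact_mod_cast hmem.1.2
    have h3 := big_err (by linarith : (2 : ℝ) ≤ u) hux hG2 _ (ht1.trans hqsr) hX'
    apply small_of_large δ hδ0 X q (1 + q * t) a hq hs1 _ hcop (x / u ^ 32)
    · exact le_trans (by exact_mod_cast card_le_card h2) h1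
    · exact big_cls hx hLx hL hδ0 (by linarith) hx0 hL2 _ hs1 (hqs.trans hmem.1.2) ht1
    · rw [← hx]
      refine h3.trans ?_
      apply mul_le_mul_of_nonneg_left _ (by positivity)
      exact div_le_div_of_nonneg_left hGpos.le (by exact_mod_cast hq) hqu
    · rw [Nat.coprime_add_mul_left_right]
      exact Nat.coprime_one_right q
  · rw [hpow2]
    apply sum_split hx (by linarith) hx0 _ (fun q => ((dv δ (F q) X q).card : ℝ)) E
      (filter_subset _ _) hE hsum (fun _ => Nat.cast_nonneg _)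
    · intro q _
      have h1 : (bd (5 * δ) X q).card ≤ q := by
        unfold bd
        exact (card_filter_le _ _).trans (card_range q).le
      exact_mod_cast h1
    · intro q hq hqE hqx
      obtain ⟨_, h2⟩ := hbig q hq hqE hqx
      have h3 := card_le_card ((bd_mono (by linarith : 4 * δ ≤ 5 * δ) X q).trans h2)
      exact_mod_cast h3

end Pool.Agent.K4H14.FG
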