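import Mathlib

/-!
Partial summation over arithmetic progressions, and a regular scale.
-/

set_option autoImplicit false

namespace Pool.Agent.K4H14.FG

open Finset

/-- sums of a monotone function over an arithmetic progression and over an interval -/
theorem ap_sum (f : ℕ → ℝ) (hf : Monotone f) (α β M : ℕ) :
    ∀ k : ℕ, (α : ℝ) * ∑ m ∈ Ico M (M + k), f (α * m + β) ≤
        ∑ t ∈ Ico (α * M + β) (α * (M + k) + β), f t ∧
      ∑ t ∈ Ico (α * M + β) (α * (M + k) + β), f t ≤
        (α : ℝ) * ∑ m ∈ Ico M (M + k), f (α * m + β) +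
        α * (f (α * (M + k) + β) - f (α * M + β)) := by
  intro k
  induction k with
  | zero => simp
  | succ k ih =>
    have h1 : Ico M (M + (k + 1)) = insert (M + k) (Ico M (M + k)) := by
      ext x; simp only [mem_Ico, mem_insert]; omega
    have h2 : ∑ t ∈ Ico (α * M + β) (α * (M + (k + 1)) + β), f t =
        ∑ t ∈ Ico (α * M + β) (α * (M + k) + β), f t +
        ∑ t ∈ Ico (α * (M + k) + β) (α * (M + (k + 1)) + β), f t := by
      rw [sum_Ico_consecutive]
      · have : α * M ≤ α * (M + k) := Nat.mul_le_mul_left _ (by omega)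
        omega
      · have : α * (M + k) ≤ α * (M + (k + 1)) := Nat.mul_le_mul_left _ (by omega)
        omega
    have h3 : (Ico (α * (M + k) + β) (α * (M + (k + 1)) + β)).card = α := by
      rw [Nat.card_Ico]
      have : α * (M + (k + 1)) = α * (M + k) + α := by ring
      omega
    have h4 : (α : ℝ) * f (α * (M + k) + β) ≤
        ∑ t ∈ Ico (α * (M + k) + β) (α * (M + (k + 1)) + β), f t := by
      have := card_nsmul_le_sum (Ico (α * (M + k) + β) (α * (M + (k + 1)) + β)) f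
        (f (α * (M + k) + β)) (fun x hx => hf (mem_Ico.1 hx).1)
      rwa [h3, nsmul_eq_mul] at this
    have h5 : ∑ t ∈ Ico (α * (M + k) + β) (α * (M + (k + 1)) + β), f t ≤
        (α : ℝ) * f (α * (M + (k + 1)) + β) := by
      have := sum_le_card_nsmul (Ico (α * (M + k) + β) (α * (M + (k + 1)) + β)) f
        (f (α * (M + (k + 1)) + β)) (fun x hx => hf (mem_Ico.1 hx).2.le)
      rwa [h3, nsmul_eq_mul] at this
    rw [h1, sum_insert (by simp), h2]
    constructor
    · linarith [ih.1]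
    · linarith [ih.2]

theorem sum_abs_le (D : ℕ → ℝ) (η : ℝ) (A B : ℕ) (hAB : A ≤ B)
    (hD : ∀ t, A ≤ t → t < B → |D t| ≤ η) : |∑ t ∈ Ico A B, D t| ≤ ((B : ℝ) - A) * η := by
  refine (abs_sum_le_sum_abs _ _).trans ?_
  refine (sum_le_card_nsmul _ _ η (fun t ht => hD t (mem_Ico.1 ht).1 (mem_Ico.1 ht).2)).trans ?_
  rw [Nat.card_Ico, nsmul_eq_mul, Nat.cast_sub hAB]

/-- The two progressions of a column. -/
theorem col_sum (f₁ f₂ : ℕ → ℝ) (h₁ : Monotone f₁) (h₂ : Monotone f₂) (h₁0 : ∀ t, 0 ≤ f₁ t)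
    (h₂0 : ∀ t, 0 ≤ f₂ t) (F₁ F₂ η : ℝ) (hη : 0 ≤ η) (P M s : ℕ) (hP : 1 ≤ P) (hM : 1 ≤ M)
    (hs : 1 ≤ s) (hF₁ : f₁ (P * (s + 1) * (2 * M) + s) ≤ F₁)
    (hF₂ : f₂ (P * (s + 1) * (2 * M) + s) ≤ F₂)
    (hD : ∀ t, P * s * M + (s - 1) ≤ t → t < P * (s + 1) * (2 * M) + s → |f₁ t - f₂ t| ≤ η) :
    |∑ m ∈ Ico M (2 * M), ((f₁ (P * (s + 1) * m + s) - f₁ (P * s * m + (s - 1))) -
      (f₂ (P * (s + 1) * m + s) - f₂ (P * s * m + (s - 1))))| ≤
      6 * M * η / s + 2 * (F₁ + F₂) := by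
  have hMM : 2 * M = M + M := by ring
  have hPr : (1 : ℝ) ≤ P := by exact_mod_cast hP
  have hMr : (1 : ℝ) ≤ M := by exact_mod_cast hM
  have hsr : (1 : ℝ) ≤ s := by exact_mod_cast hs
  -- the four comparisons
  have key : ∀ f : ℕ → ℝ, Monotone f → (∀ t, 0 ≤ f t) → ∀ F : ℝ,
      f (P * (s + 1) * (2 * M) + s) ≤ F →
      |∑ m ∈ Ico M (2 * M), f (P * (s + 1) * m + s) -
        (∑ t ∈ Ico (P * (s + 1) * M + s) (P * (s + 1) * (2 * M) + s), f t) / (P * (s + 1))| ≤ F ∧
      |∑ m ∈ Ico M (2 * M), f (P * s * m + (s - 1)) -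
        (∑ t ∈ Ico (P * s * M + (s - 1)) (P * s * (2 * M) + (s - 1)), f t) / (P * s)| ≤ F := by
    intro f hf hf0 F hF
    have a1 := ap_sum f hf (P * (s + 1)) s M M
    have a2 := ap_sum f hf (P * s) (s - 1) M M
    rw [← hMM] at a1 a2
    have e1 : (0 : ℝ) < (P : ℝ) * (s + 1) := by positivity
    have e2 : (0 : ℝ) < (P : ℝ) * s := by positivity
    have hle : P * s * (2 * M) + (s - 1) ≤ P * (s + 1) * (2 * M) + s := by
      have : P * s * (2 * M) ≤ P * (s + 1) * (2 * M) :=
        Nat.mul_le_mul_right _ (Nat.mul_le_mul_left _ (by omega))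
      omega
    have hF' : f (P * s * (2 * M) + (s - 1)) ≤ F := (hf hle).trans hF
    push_cast at a1 a2
    constructor
    · rw [abs_le]
      have b1 := hf0 (P * (s + 1) * M + s)
      constructor
      · rw [neg_le_sub_iff_le_add, ← sub_le_iff_le_add', ]
        have : (∑ t ∈ Ico (P * (s + 1) * M + s) (P * (s + 1) * (2 * M) + s), f t) / (P * (s + 1)) ≤
            ∑ m ∈ Ico M (2 * M), f (P * (s + 1) * m + s) + F := by
          rw [div_le_iff₀ e1]
          have := a1.2
          nlinarith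
        linarith
      · have : ∑ m ∈ Ico M (2 * M), f (P * (s + 1) * m + s) ≤
            (∑ t ∈ Ico (P * (s + 1) * M + s) (P * (s + 1) * (2 * M) + s), f t) / (P * (s + 1)) := by
          rw [le_div_iff₀ e1]
          linarith [a1.1]
        have b2 := hf0 (P * (s + 1) * (2 * M) + s)
        linarith
    · rw [abs_le]
      have b1 := hf0 (P * s * M + (s - 1))
      constructor
      · have : (∑ t ∈ Ico (P * s * M + (s - 1)) (P * s * (2 * M) + (s - 1)), f t) / (P * s) ≤
            ∑ m ∈ Ico M (2 * M), f (P * s * m + (s - 1)) + F := by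
          rw [div_le_iff₀ e2]
          have := a2.2
          nlinarith
        linarith
      · have : ∑ m ∈ Ico M (2 * M), f (P * s * m + (s - 1)) ≤
            (∑ t ∈ Ico (P * s * M + (s - 1)) (P * s * (2 * M) + (s - 1)), f t) / (P * s) := by
          rw [le_div_iff₀ e2]
          linarith [a2.1]
        have b2 := hf0 (P * s * (2 * M) + (s - 1))
        linarith
  obtain ⟨k1, k2⟩ := key f₁ h₁ h₁0 F₁ hF₁
  obtain ⟨k3, k4⟩ := key f₂ h₂ h₂0 F₂ hF₂
  set A1 := P * (s + 1) * M + s with hA1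
  set B1 := P * (s + 1) * (2 * M) + s with hB1
  set A2 := P * s * M + (s - 1) with hA2
  set B2 := P * s * (2 * M) + (s - 1) with hB2
  have hA1r : (A1 : ℝ) = P * (s + 1) * M + s := by rw [hA1]; push_cast; ring
  have hB1r : (B1 : ℝ) = P * (s + 1) * (2 * M) + s := by rw [hB1]; push_cast; ring
  have hs1 : ((s - 1 : ℕ) : ℝ) = s - 1 := by rw [Nat.cast_sub hs]; simp
  have hA2r : (A2 : ℝ) = P * s * M + (s - 1) := by rw [hA2]; push_cast; rw [hs1]
  have hB2r : (B2 : ℝ) = P * s * (2 * M) + (s - 1) := by rw [hB2]; push_cast; rw [hs1]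
  have hA2A1 : A2 ≤ A1 := by
    rw [hA1, hA2]
    have : P * s * M ≤ P * (s + 1) * M := Nat.mul_le_mul_right _ (Nat.mul_le_mul_left _ (by omega))
    omega
  have hB2B1 : B2 ≤ B1 := by
    rw [hB1, hB2]
    have : P * s * (2 * M) ≤ P * (s + 1) * (2 * M) :=
      Nat.mul_le_mul_right _ (Nat.mul_le_mul_left _ (by omega))
    omega
  have hA1B1 : A1 ≤ B1 := by
    rw [hA1, hB1]
    have : P * (s + 1) * M ≤ P * (s + 1) * (2 * M) := Nat.mul_le_mul_left _ (by omega)
    omega
  have hA2B2 : A2 ≤ B2 := by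
    rw [hA2, hB2]
    have : P * s * M ≤ P * s * (2 * M) := Nat.mul_le_mul_left _ (by omega)
    omega
  have hJ : |(∑ t ∈ Ico A1 B1, (f₁ t - f₂ t)) / (P * (s + 1)) -
      (∑ t ∈ Ico A2 B2, (f₁ t - f₂ t)) / (P * s)| ≤ 6 * M * η / s := by
    have e1 : (0 : ℝ) < (P : ℝ) * (s + 1) := by positivity
    have e2 : (0 : ℝ) < (P : ℝ) * s := by positivity
    rcases Nat.lt_or_ge 1 s with h1s | h1s
    · have hs2 : (2 : ℝ) ≤ s := by exact_mod_cast h1s
      have hAB : A1 ≤ B2 := by
        have : (A1 : ℝ) ≤ B2 := by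
          rw [hA1r, hB2r]
          have : (1 : ℝ) ≤ P * M * (s - 1) := by
            have h1 : (1 : ℝ) ≤ P * M := by nlinarith
            nlinarith
          nlinarith
        exact_mod_cast this
      rw [← sum_Ico_consecutive _ hAB hB2B1, ← sum_Ico_consecutive _ hA2A1 hAB]
      have m1 := sum_abs_le (fun t => f₁ t - f₂ t) η A1 B2 hAB
        (fun t h h' => hD t (by omega) (by omega))
      have m2 := sum_abs_le (fun t => f₁ t - f₂ t) η B2 B1 hB2B1
        (fun t h h' => hD t (by omega) (by omega))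
      have m3 := sum_abs_le (fun t => f₁ t - f₂ t) η A2 A1 hA2A1
        (fun t h h' => hD t (by omega) (by omega))
      set Jm := ∑ t ∈ Ico A1 B2, (f₁ t - f₂ t)
      set Jr := ∑ t ∈ Ico B2 B1, (f₁ t - f₂ t)
      set Jl := ∑ t ∈ Ico A2 A1, (f₁ t - f₂ t)
      have e3 : (Jm + Jr) / (P * (s + 1)) - (Jl + Jm) / (P * s) =
          -(Jm / (P * s * (s + 1))) + Jr / (P * (s + 1)) - Jl / (P * s) := by
        field_simp
        ring
      rw [e3]
      have n1 : |Jm / ((P : ℝ) * s * (s + 1))| ≤ M * η / s := by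
        rw [abs_div, abs_of_pos (by positivity : (0 : ℝ) < (P : ℝ) * s * (s + 1)),
          div_le_div_iff₀ (by positivity) (by positivity)]
        have h5 : |Jm| ≤ P * M * (s + 1) * η := by
          refine m1.trans (mul_le_mul_of_nonneg_right ?_ hη)
          rw [hA1r, hB2r]
          nlinarith [mul_nonneg (by linarith : (0:ℝ) ≤ P) (by linarith : (0:ℝ) ≤ M)]
        calc |Jm| * s ≤ (P * M * (s + 1) * η) * s := mul_le_mul_of_nonneg_right h5 (by linarith)
          _ = M * η * (P * s * (s + 1)) := by ring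
      have n2 : |Jr / ((P : ℝ) * (s + 1))| ≤ 3 * M * η / s := by
        rw [abs_div, abs_of_pos e1, div_le_div_iff₀ e1 (by positivity)]
        have h5 : |Jr| ≤ 3 * P * M * η := by
          refine m2.trans (mul_le_mul_of_nonneg_right ?_ hη)
          rw [hB1r, hB2r]
          nlinarith
        calc |Jr| * s ≤ (3 * P * M * η) * s := mul_le_mul_of_nonneg_right h5 (by linarith)
          _ ≤ 3 * M * η * (P * (s + 1)) := by
              have : 0 ≤ P * (M * η) := by positivity
              nlinarith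
      have n3 : |Jl / ((P : ℝ) * s)| ≤ 2 * M * η / s := by
        rw [abs_div, abs_of_pos e2, div_le_div_iff₀ e2 (by positivity)]
        have h5 : |Jl| ≤ 2 * P * M * η := by
          refine m3.trans (mul_le_mul_of_nonneg_right ?_ hη)
          rw [hA1r, hA2r]
          nlinarith
        calc |Jl| * s ≤ (2 * P * M * η) * s := mul_le_mul_of_nonneg_right h5 (by linarith)
          _ = 2 * M * η * (P * s) := by ring
      have n4 : (6 : ℝ) * M * η / s = M * η / s + 3 * M * η / s + 2 * M * η / s := by ring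
      rw [n4, abs_le]
      rw [abs_le] at n1 n2 n3
      constructor <;> linarith [n1.1, n1.2, n2.1, n2.2, n3.1, n3.2]
    · have hs1' : s = 1 := by omega
      have m1 := sum_abs_le (fun t => f₁ t - f₂ t) η A1 B1 hA1B1
        (fun t h h' => hD t (by omega) (by omega))
      have m2 := sum_abs_le (fun t => f₁ t - f₂ t) η A2 B2 hA2B2
        (fun t h h' => hD t (by omega) (by omega))
      rw [hA1r, hB1r] at m1
      rw [hA2r, hB2r] at m2
      set J1 := ∑ t ∈ Ico A1 B1, (f₁ t - f₂ t)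
      set J2 := ∑ t ∈ Ico A2 B2, (f₁ t - f₂ t)
      have n1 : |J1 / ((P : ℝ) * (s + 1))| ≤ M * η := by
        rw [abs_div, abs_of_pos e1, div_le_iff₀ e1]
        refine m1.trans (le_of_eq (by ring))
      have n2 : |J2 / ((P : ℝ) * s)| ≤ M * η := by
        rw [abs_div, abs_of_pos e2, div_le_iff₀ e2]
        refine m2.trans (le_of_eq (by ring))
      have n3 : (6 : ℝ) * M * η / s = 6 * (M * η) := by rw [hs1']; simp; ring
      have n4 : 0 ≤ M * η := by positivity
      rw [n3, abs_le]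
      rw [abs_le] at n1 n2
      constructor <;> linarith [n1.1, n1.2, n2.1, n2.2]
  rw [sum_sub_distrib, sum_sub_distrib] at hJ
  have e1 : (0 : ℝ) < (P : ℝ) * (s + 1) := by positivity
  have e2 : (0 : ℝ) < (P : ℝ) * s := by positivity
  rw [sub_div, sub_div] at hJ
  rw [sum_sub_distrib, sum_sub_distrib, sum_sub_distrib]
  rw [abs_le] at k1 k2 k3 k4 hJ ⊢
  constructor <;> linarith [k1.1, k1.2, k2.1, k2.2, k3.1, k3.2, k4.1, k4.2, hJ.1, hJ.2]

/-- a regular scale -/
theorem reg (g : ℕ → ℝ) (K₀ n : ℕ) (U W : ℝ) (hU : ∑ i ∈ range (K₀ + 1), g i ≤ U)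
    (hg : ∀ i, 0 ≤ g i) (hW : W ≤ g (K₀ + n)) (h : (4 / 3 : ℝ) ^ n * U < W) :
    ∃ k, K₀ ≤ k ∧ k ≤ K₀ + n ∧ ∑ i ∈ range (k + 1), g i ≤ 4 * g k := by
  by_contra hc
  push Not at hc
  have h1 : ∀ j, j ≤ n → ∑ i ∈ range (K₀ + j + 1), g i ≤ (4 / 3 : ℝ) ^ j * U := by
    intro j
    induction j with
    | zero => intro _; simpa using hU
    | succ j ih =>
      intro hj
      have h2 := ih (by omega)
      have h3 := hc (K₀ + (j + 1)) (by omega) (by omega)
      have h4 : ∑ i ∈ range (K₀ + (j + 1) + 1), g i =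
          ∑ i ∈ range (K₀ + j + 1), g i + g (K₀ + (j + 1)) := by
        rw [sum_range_succ, add_assoc K₀ j 1]
      rw [h4] at h3 ⊢
      rw [pow_succ]
      nlinarith
  have h2 := h1 n le_rfl
  have h3 : g (K₀ + n) ≤ ∑ i ∈ range (K₀ + n + 1), g i := by
    rw [sum_range_succ]
    have : 0 ≤ ∑ i ∈ range (K₀ + n), g i := sum_nonneg (fun i _ => hg i)
    linarith
  linarith

/-- dyadic blocks -/
theorem dyadic (h : ℕ → ℝ) (hh : ∀ n, 0 ≤ h n) (H : ℕ → ℝ) :
    ∀ n : ℕ, (∀ j < n, ∀ s, 2 ^ j ≤ s → s < 2 ^ (j + 1) → h s ≤ H j) →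
    ∑ s ∈ Ico 1 (2 ^ n), h s / s ≤ ∑ j ∈ range n, H j := by
  intro n
  induction n with
  | zero => intro _; simp
  | succ n ih =>
    intro hj
    rw [← sum_Ico_consecutive _ (Nat.one_le_two_pow) (Nat.pow_le_pow_right (by norm_num)
      (Nat.le_succ n)), sum_range_succ]
    have h1 := ih (fun j hjn => hj j (by omega))
    have h2 : ∑ s ∈ Ico (2 ^ n) (2 ^ (n + 1)), h s / s ≤ H n := by
      have h3 : ∀ s ∈ Ico (2 ^ n) (2 ^ (n + 1)), h s / s ≤ H n / 2 ^ n := by
        intro s hs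
        rw [mem_Ico] at hs
        have h4 := hj n (by omega) s hs.1 hs.2
        have h5 : (2 : ℝ) ^ n ≤ s := by exact_mod_cast hs.1
        have h6 : 0 ≤ H n := (hh s).trans h4
        have h7 : (0 : ℝ) < 2 ^ n := by positivity
        calc h s / s ≤ H n / s := by
              apply div_le_div_of_nonneg_right h4 (by linarith)
          _ ≤ H n / 2 ^ n := div_le_div_of_nonneg_left h6 h7 h5
      refine (sum_le_card_nsmul _ _ _ h3).trans ?_
      rw [Nat.card_Ico, nsmul_eq_mul]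
      have h8 : 2 ^ (n + 1) - 2 ^ n = 2 ^ n := by rw [pow_succ]; omega
      rw [h8]
      push_cast
      rw [mul_div_cancel₀]
      positivity
    linarith

end Pool.Agent.K4H14.FG
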