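import Pool.Agent.K4H14.FG.Dens
import Pool.Agent.K4H14.FG.Part

/-!
The contradiction at one scale.
-/

set_option autoImplicit false

namespace Pool.Agent.K4H14.FG

open Finset

/-- the primes of the windows in `J` -/
noncomputable def UJ (z : ℝ) (N : ℕ) (J : Finset ℕ) : Finset ℕ := J.biUnion (win z N)

/-- their product -/
noncomputable def PJ (z : ℝ) (N : ℕ) (J : Finset ℕ) : ℕ := ∏ p ∈ UJ z N J, p

theorem UJ_prime (z : ℝ) (N : ℕ) (J : Finset ℕ) : ∀ p ∈ UJ z N J, p.Prime := by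
  intro p hp
  unfold UJ win at hp
  rw [mem_biUnion] at hp
  obtain ⟨j, _, hj⟩ := hp
  exact (mem_filter.1 hj).2

theorem PJ_pos (z : ℝ) (N : ℕ) (J : Finset ℕ) : 0 < PJ z N J :=
  prod_pos (fun p hp => (UJ_prime z N J p hp).pos)

theorem PJ_primeFactors (z : ℝ) (N : ℕ) (J : Finset ℕ) : (PJ z N J).primeFactors = UJ z N J :=
  Nat.primeFactors_prod (UJ_prime z N J)

theorem PJ_dvd (z : ℝ) (N : ℕ) {J K : Finset ℕ} (h : J ⊆ K) : PJ z N J ∣ PJ z N K :=
  prod_dvd_prod_of_subset _ _ _ (biUnion_subset_biUnion_of_subset_left _ h)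

theorem win_disj (z : ℝ) (hz : 1 ≤ z) (N : ℕ) (s : Set ℕ) : s.PairwiseDisjoint (win z N) := by
  have key : ∀ i j : ℕ, i < j → Disjoint (win z N i) (win z N j) := by
    intro i j hij
    rw [disjoint_left]
    intro p h1 h2
    unfold win at h1 h2
    rw [mem_filter, mem_Ico] at h1 h2
    have h3 : ⌈z ^ th N (i + 1)⌉₊ ≤ ⌈z ^ th N j⌉₊ :=
      Nat.ceil_mono (Real.rpow_le_rpow_of_exponent_le hz (th_mono N hij))
    omega
  intro i _ j _ hij
  rcases lt_or_gt_of_ne hij with h | h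
  · exact key i j h
  · exact (key j i h).symm

theorem cls_PJ (z : ℝ) (hz : 1 ≤ z) (N : ℕ) (J : Finset ℕ) :
    (cls (PJ z N J) : ℝ) = PJ z N J * ∏ j ∈ J, ∏ p ∈ win z N j, lf p := by
  rw [cls_eq _ (PJ_pos z N J), PJ_primeFactors, UJ, prod_biUnion (win_disj z hz N _)]

open Classical in
/-- no prime of the `j`-th window divides `s ^ 2 + 1` -/
noncomputable def ch (z : ℝ) (N s j : ℕ) : ℝ := if ∀ p ∈ win z N j, ¬ p ∣ s ^ 2 + 1 then 1 else 0

theorem prod_ch (z : ℝ) (N s : ℕ) (J : Finset ℕ) :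
    ∏ j ∈ J, ch z N s j = if Nat.Coprime (s ^ 2 + 1) (PJ z N J) then 1 else 0 := by
  classical
  unfold ch
  rw [prod_ite_zero, prod_const_one]
  congr 1
  rw [coprime_iff _ _ (PJ_pos z N J), PJ_primeFactors]
  simp only [UJ, mem_biUnion, eq_iff_iff]
  constructor
  · rintro h p ⟨j, hj, hp⟩
    exact h j hj p hp
  · intro h j hj p hp
    exact h p ⟨j, hj, hp⟩

/-- one of the windows has no prime dividing `s ^ 2 + 1` -/
theorem ch_prod_zero (z : ℝ) (hz : 1 ≤ z) (N s : ℕ) (hs : ((s : ℝ) ^ 2 + 1) < z ^ ((N : ℝ) / 2)) :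
    ∏ j ∈ range N, (1 - ch z N s j) = 0 := by
  classical
  by_contra hc
  rw [← ne_eq, prod_ne_zero_iff] at hc
  have h1 : ∀ j ∈ range N, ∃ p, p ∈ win z N j ∧ p ∣ s ^ 2 + 1 := by
    intro j hj
    have := hc j hj
    by_contra h
    push Not at h
    apply this
    unfold ch
    rw [if_pos h, sub_self]
  choose! f hf using h1
  have hpr : ∀ j ∈ range N, (f j).Prime := fun j hj => by
    have := (hf j hj).1
    unfold win at this
    exact (mem_filter.1 this).2
  have h2 : ∏ j ∈ range N, f j ∣ s ^ 2 + 1 := by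
    have hinj : Set.InjOn f (range N : Set ℕ) := by
      intro i hi j hj hij
      by_contra hne
      have h5 := win_disj z hz N (range N : Set ℕ) hi hj hne
      rw [Function.onFun, disjoint_left] at h5
      have h6 := (hf j (mem_coe.1 hj)).1
      rw [← hij] at h6
      exact h5 (hf i (mem_coe.1 hi)).1 h6
    rw [← prod_image (f := fun p => p) (g := f) (s := range N) hinj]
    apply Finset.prod_primes_dvd
    · intro a ha
      rw [mem_image] at ha
      obtain ⟨j, hj, rfl⟩ := ha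
      exact (hpr j hj).prime
    · intro a ha
      rw [mem_image] at ha
      obtain ⟨j, hj, rfl⟩ := ha
      exact (hf j hj).2
  have h3 : z ^ ((N : ℝ) / 2) ≤ ∏ j ∈ range N, (f j : ℝ) := by
    have h4 : z ^ ((N : ℝ) / 2) = ∏ j ∈ range N, z ^ (1 / 2 : ℝ) := by
      rw [prod_const, card_range, ← Real.rpow_natCast, ← Real.rpow_mul (by linarith)]
      congr 1
      ring
    rw [h4]
    apply prod_le_prod
    · intro j _; positivity
    · intro j hj
      have := (hf j hj).1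
      unfold win at this
      rw [mem_filter, mem_Ico] at this
      refine le_trans ?_ (Nat.ceil_le.1 this.1.1)
      exact Real.rpow_le_rpow_of_exponent_le hz (th_half N j)
  have h4 : ((∏ j ∈ range N, f j : ℕ) : ℝ) ≤ (s : ℝ) ^ 2 + 1 := by
    exact_mod_cast Nat.le_of_dvd (by positivity) h2
  push_cast at h4
  linarith

/-- inclusion and exclusion -/
theorem incl_excl (z : ℝ) (hz : 1 ≤ z) (N : ℕ) (S : Finset ℕ)
    (hS : ∀ s ∈ S, ((s : ℝ) ^ 2 + 1) < z ^ ((N : ℝ) / 2)) (m : ℕ → ℝ) :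
    ∑ J ∈ (range N).powerset, (-1 : ℝ) ^ J.card *
      ∑ s ∈ S.filter (fun s => Nat.Coprime (s ^ 2 + 1) (PJ z N J)), m s = 0 := by
  classical
  have h1 : ∀ J : Finset ℕ, ∑ s ∈ S.filter (fun s => Nat.Coprime (s ^ 2 + 1) (PJ z N J)), m s =
      ∑ s ∈ S, m s * ∏ j ∈ J, ch z N s j := by
    intro J
    rw [sum_filter]
    apply sum_congr rfl
    intro s _
    rw [prod_ch]
    split_ifs <;> simp
  have h2 : ∀ s ∈ S, ∑ J ∈ (range N).powerset, (-1 : ℝ) ^ J.card * ∏ j ∈ J, ch z N s j = 0 := by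
    intro s hs
    have h3 := ch_prod_zero z hz N s (hS s hs)
    rw [← h3]
    have h4 : ∀ j ∈ range N, 1 - ch z N s j = (-ch z N s j) + 1 := fun j _ => by ring
    rw [prod_congr rfl h4, prod_add]
    apply sum_congr rfl
    intro J _
    rw [prod_const_one, mul_one, prod_neg]
  calc ∑ J ∈ (range N).powerset, (-1 : ℝ) ^ J.card *
      ∑ s ∈ S.filter (fun s => Nat.Coprime (s ^ 2 + 1) (PJ z N J)), m s
      = ∑ s ∈ S, m s * ∑ J ∈ (range N).powerset, (-1 : ℝ) ^ J.card * ∏ j ∈ J, ch z N s j := by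
        simp_rw [h1, mul_sum]
        rw [sum_comm]
        apply sum_congr rfl
        intro s _
        apply sum_congr rfl
        intro J _
        ring
    _ = 0 := by
        apply sum_eq_zero
        intro s hs
        rw [h2 s hs, mul_zero]

theorem incl_excl_main (z : ℝ) (N : ℕ) (hN : 1 ≤ N)
    (hwin : ∀ j < N, ∏ p ∈ win z N j, lf p ≤ 1 - 1 / (4 * N)) :
    (1 / (4 * N : ℝ)) ^ N ≤ ∑ J ∈ (range N).powerset, (-1 : ℝ) ^ J.card *
      ∏ j ∈ J, ∏ p ∈ win z N j, lf p := by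
  have h1 : ∏ j ∈ range N, (1 - ∏ p ∈ win z N j, lf p) =
      ∑ J ∈ (range N).powerset, (-1 : ℝ) ^ J.card * ∏ j ∈ J, ∏ p ∈ win z N j, lf p := by
    have h4 : ∀ j ∈ range N, 1 - ∏ p ∈ win z N j, lf p = (-∏ p ∈ win z N j, lf p) + 1 :=
      fun j _ => by ring
    rw [prod_congr rfl h4, prod_add]
    apply sum_congr rfl
    intro J _
    rw [prod_const_one, mul_one, prod_neg]
  rw [← h1]
  have hNr : (1 : ℝ) ≤ N := by exact_mod_cast hN
  calc (1 / (4 * N : ℝ)) ^ N = ∏ j ∈ range N, (1 / (4 * N : ℝ)) := by rw [prod_const, card_range]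
    _ ≤ _ := by
        apply prod_le_prod
        · intro j _; positivity
        · intro j hj
          have := hwin j (mem_range.1 hj)
          linarith

end Pool.Agent.K4H14.FG
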