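import Pool.Agent.K4H14.FG.Core2

/-!
The contradiction at one scale, assembled.
-/

set_option autoImplicit false

namespace Pool.Agent.K4H14.FG

open Finset

theorem shift_sum (g : ℕ → ℝ) (hg : ∀ i, 0 ≤ g i) (k : ℕ) :
    ∑ j ∈ range (k + 1), g (min (j + 4) k) ≤ ∑ i ∈ range (k + 1), g i + 4 * g k := by
  rw [← sum_filter_add_sum_filter_not (range (k + 1)) (fun j => j + 4 ≤ k)]
  have h1 : ∑ j ∈ (range (k + 1)).filter (fun j => j + 4 ≤ k), g (min (j + 4) k) ≤
      ∑ i ∈ range (k + 1), g i := by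
    have h2 : ∑ j ∈ (range (k + 1)).filter (fun j => j + 4 ≤ k), g (min (j + 4) k) =
        ∑ i ∈ ((range (k + 1)).filter (fun j => j + 4 ≤ k)).image (fun j => j + 4), g i := by
      rw [sum_image (fun a _ b _ h => by simpa using h)]
      apply sum_congr rfl
      intro j hj
      rw [min_eq_left (mem_filter.1 hj).2]
    rw [h2]
    apply sum_le_sum_of_subset_of_nonneg
    · intro i hi
      rw [mem_image] at hi
      obtain ⟨j, hj, rfl⟩ := hi
      rw [mem_filter] at hj
      rw [mem_range]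
      omega
    · intro i _ _
      exact hg i
  have h2 : ∑ j ∈ (range (k + 1)).filter (fun j => ¬ j + 4 ≤ k), g (min (j + 4) k) ≤ 4 * g k := by
    have h3 : ∀ j ∈ (range (k + 1)).filter (fun j => ¬ j + 4 ≤ k), g (min (j + 4) k) ≤ g k := by
      intro j hj
      rw [min_eq_right (by have := (mem_filter.1 hj).2; omega)]
    refine (sum_le_card_nsmul _ _ _ h3).trans ?_
    rw [nsmul_eq_mul]
    apply mul_le_mul_of_nonneg_right _ (hg k)
    have h4 : (range (k + 1)).filter (fun j => ¬ j + 4 ≤ k) ⊆ Ico (k - 3) (k + 1) := by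
      intro j hj
      rw [mem_filter, mem_range] at hj
      rw [mem_Ico]
      omega
    have h5 := card_le_card h4
    rw [Nat.card_Ico] at h5
    exact_mod_cast (by omega : ((range (k + 1)).filter (fun j => ¬ j + 4 ≤ k)).card ≤ 4)
  linarith

theorem core (N : ℕ) (hN : 1 ≤ N) (z : ℝ) (hz : 1 ≤ z)
    (hwin : ∀ j < N, ∏ p ∈ win z N j, lf p ≤ 1 - 1 / (4 * N)) (M k : ℕ) (hM : 1 ≤ M) (δ : ℝ)
    (hδ0 : 0 < δ) (hδ1 : δ ≤ 1) (X P : ℕ) (hP : P = PJ z N (range N)) (hX : X = 2 ^ k * (P * M))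
    (hs : ((2 : ℝ) ^ (k + 1)) ^ 2 ≤ z ^ ((N : ℝ) / 2)) (hG : 0 < cnt X 1 0)
    (ha : ∀ t, P * M ≤ t → t ≤ X → ∀ d, d ∣ P → ∀ a, Nat.Coprime (a ^ 2 + 1) d →
      |(cnt t d a : ℝ) - cnt t 1 0 / cls d| ≤ δ * (cnt t 1 0 / cls d))
    (bad : ℕ → Finset ℕ)
    (hbad : ∀ m ∈ Ico M (2 * M), ∀ a ∈ range (1 + P * m), Nat.Coprime (a ^ 2 + 1) (1 + P * m) →
      a ∉ bad m → |(cnt X (1 + P * m) a : ℝ) - cnt X 1 0 / cls (1 + P * m)| ≤
        δ * (cnt X 1 0 / cls (1 + P * m)))
    (Wb : ℝ) (hWb : ∀ m ∈ Ico M (2 * M), ∀ a ∈ bad m,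
      (cnt X (1 + P * m) a : ℝ) + cnt X 1 0 / cls (1 + P * m) ≤ Wb)
    (hbw : (∑ m ∈ Ico M (2 * M), ((bad m).card : ℝ)) * Wb ≤ δ * (M * cnt X 1 0 / P))
    (h3 : ∀ m ∈ Ico M (2 * M), 2 * 3 ^ (1 + P * m).primeFactors.card * (P : ℝ) ≤
      δ * cls (1 + P * m))
    (hq : 2 * (1 + (P : ℝ) * (2 * M)) ≤ δ * cnt X 1 0)
    (hk : 6 * (2 : ℝ) ^ (k + 1) ≤ δ * M)
    (hreg : ∑ i ∈ range (k + 1), (cnt (2 ^ i * (P * M)) 1 0 : ℝ) ≤ 4 * cnt X 1 0) :
    (1 / (4 * N : ℝ)) ^ N ≤ 2 ^ N * (54 * δ) := by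
  classical
  have hP1 : 1 ≤ P := by rw [hP]; exact PJ_pos z N _
  set G : ℝ := (cnt X 1 0 : ℝ) with hGdef
  have hG0 : 0 < G := by rw [hGdef]; exact_mod_cast hG
  have hPM : 1 ≤ P * M := Nat.mul_pos hP1 hM
  have hXPM : P * M ≤ X := by rw [hX]; exact Nat.le_mul_of_pos_left _ (by positivity)
  have hMr : (1 : ℝ) ≤ M := by exact_mod_cast hM
  have hPr : (1 : ℝ) ≤ P := by exact_mod_cast hP1
  -- the weights
  set ms : ℕ → ℝ := fun s => ∑ m ∈ Ico M (2 * M), ((cnt (min (P * (s + 1) * m + s) X) 1 0 : ℝ) -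
        cnt (min (P * s * m + (s - 1)) X) 1 0) with hms
  set SS := Ico 1 (2 ^ (k + 1)) with hSS
  -- regularity
  have hregs : ∑ s ∈ SS, (cnt (min (5 * (P * M * s)) X) 1 0 : ℝ) / s ≤ 8 * G := by
    have h1 := dyadic (fun s => (cnt (min (5 * (P * M * s)) X) 1 0 : ℝ)) (fun _ => Nat.cast_nonneg _)
      (fun j => (cnt (2 ^ (min (j + 4) k) * (P * M)) 1 0 : ℝ)) (k + 1) (by
        intro j hj s hs1 hs2
        have h2 : min (5 * (P * M * s)) X ≤ 2 ^ (min (j + 4) k) * (P * M) := by
          rcases le_total (j + 4) k with h | h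
          · rw [min_eq_left h]
            refine (min_le_left _ _).trans ?_
            have h5 : s ≤ 2 ^ (j + 1) := hs2.le
            calc 5 * (P * M * s) ≤ 5 * (P * M * 2 ^ (j + 1)) := by gcongr
              _ ≤ 8 * (P * M * 2 ^ (j + 1)) := by
                  apply Nat.mul_le_mul_right; norm_num
              _ = 2 ^ (j + 4) * (P * M) := by ring
          · rw [min_eq_right h, hX]
            exact min_le_right _ _
        exact_mod_cast cnt_mono h2 1 0)
    refine h1.trans ?_
    have h2 := shift_sum (fun i => (cnt (2 ^ i * (P * M)) 1 0 : ℝ)) (fun _ => Nat.cast_nonneg _) k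
    rw [← hX] at h2
    linarith
  have hcardS : (SS.card : ℝ) ≤ 2 ^ (k + 1) := by
    rw [hSS, Nat.card_Ico]
    exact_mod_cast Nat.sub_le _ _
  -- one set of windows
  have key : ∀ J ∈ (range N).powerset,
      |∑ s ∈ SS.filter (fun s => Nat.Coprime (s ^ 2 + 1) (PJ z N J)), ms s -
        (∏ j ∈ J, ∏ p ∈ win z N j, lf p) * (M * G)| ≤ 54 * δ * (M * G) := by
    intro J hJ
    rw [mem_powerset] at hJ
    have hdP : PJ z N J ∣ P := by rw [hP]; exact PJ_dvd z N hJ
    have hcls := cls_PJ z hz N J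
    have hd1 : 1 ≤ PJ z N J := PJ_pos z N J
    generalize PJ z N J = d at hdP hcls hd1
    set V := ∏ j ∈ J, ∏ p ∈ win z N j, lf p with hV
    have hdr : (1 : ℝ) ≤ d := by exact_mod_cast hd1
    have hdPr : (d : ℝ) ≤ P := by exact_mod_cast Nat.le_of_dvd hP1 hdP
    have hc0 : (0 : ℝ) < cls d := by exact_mod_cast cls_pos d hd1
    have hcd : (cls d : ℝ) ≤ d := by exact_mod_cast cls_le d
    -- rows
    have hrow : |∑ m ∈ Ico M (2 * M), (row X (1 + P * m) d : ℝ) - M * (G / d)| ≤
        5 * δ * (M * (G / d)) := by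
      have h1 : ∀ m ∈ Ico M (2 * M), |(row X (1 + P * m) d : ℝ) - G / d| ≤
          4 * δ * (G / d) + (bad m).card * Wb := by
        intro m hm
        have hm' := mem_Ico.1 hm
        refine row_main X (1 + P * m) d δ Wb G hG0 hδ0.le hδ1 (by omega) hd1 ?_ ?_ ?_ (bad m)
          (hbad m hm) (hWb m hm)
        · refine Nat.Coprime.coprime_dvd_left hdP ?_
          simp
        · refine le_trans ?_ (h3 m hm)
          exact mul_le_mul_of_nonneg_left hdPr (by positivity)
        · refine le_trans ?_ hq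
          have h4 : (m : ℝ) ≤ 2 * M := by exact_mod_cast hm'.2.le
          push_cast
          nlinarith
      have h2 : ∑ m ∈ Ico M (2 * M), (row X (1 + P * m) d : ℝ) - M * (G / d) =
          ∑ m ∈ Ico M (2 * M), ((row X (1 + P * m) d : ℝ) - G / d) := by
        rw [sum_sub_distrib, sum_const, Nat.card_Ico, nsmul_eq_mul]
        congr 2
        have : 2 * M - M = M := by omega
        rw [this]
      rw [h2]
      refine (abs_sum_le_sum_abs _ _).trans ((sum_le_sum h1).trans ?_)
      rw [sum_add_distrib, sum_const, Nat.card_Ico, nsmul_eq_mul, ← sum_mul]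
      have h4 : ((2 * M - M : ℕ) : ℝ) = M := by
        have : 2 * M - M = M := by omega
        rw [this]
      rw [h4]
      have h5 : δ * (M * G / P) ≤ δ * (M * (G / d)) := by
        apply mul_le_mul_of_nonneg_left _ hδ0.le
        rw [mul_div_assoc]
        apply mul_le_mul_of_nonneg_left _ (by linarith)
        exact div_le_div_of_nonneg_left hG0.le (by linarith) hdPr
      linarith
    -- columns
    have hcol : ∑ m ∈ Ico M (2 * M), (row X (1 + P * m) d : ℝ) =
        ∑ s ∈ SS.filter (fun s => Nat.Coprime (s ^ 2 + 1) d), ∑ m ∈ Ico M (2 * M),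
          ((cnt (min (P * (s + 1) * m + s) X) d s : ℝ) - cnt (min (P * s * m + (s - 1)) X) d s) := by
      have h1 : ∀ m ∈ Ico M (2 * M), (row X (1 + P * m) d : ℝ) = ∑ s ∈ SS,
          ((cnt (min (P * (s + 1) * m + s) X) d s : ℝ) - cnt (min (P * s * m + (s - 1)) X) d s) := by
        intro m hm
        have hm' := mem_Ico.1 hm
        have hPm : 1 ≤ P * m := Nat.mul_pos hP1 (by omega)
        have h2 := row_col X (1 + P * m) d (2 ^ (k + 1) - 1) (by omega) (by
          have h5 : P * m ≡ 0 [MOD d] := (Nat.modEq_zero_iff_dvd).2 (hdP.mul_right m)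
          simpa using h5.add_left 1) (by
          apply Nat.le_sub_one_of_lt
          rw [Nat.div_lt_iff_lt_mul (by omega), hX]
          have h6 : P * M ≤ P * m := Nat.mul_le_mul_left _ hm'.1
          calc 2 ^ k * (P * M) ≤ 2 ^ k * (P * m) := Nat.mul_le_mul_left _ h6
            _ < 2 ^ (k + 1) * (1 + P * m) := by
              rw [pow_succ]
              have : 0 < 2 ^ k := by positivity
              nlinarith)
        have h7 : Icc 1 (2 ^ (k + 1) - 1) = SS := by
          ext x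
          rw [hSS, mem_Icc, mem_Ico]
          have : 0 < 2 ^ (k + 1) := by positivity
          omega
        rw [h7] at h2
        have h8 : (row X (1 + P * m) d : ℝ) = ((row X (1 + P * m) d : ℤ) : ℝ) := by push_cast; rfl
        rw [h8, h2]
        push_cast
        apply sum_congr rfl
        intro s hs
        rw [hSS, mem_Ico] at hs
        have e1 : (1 + P * m) * (s + 1) - 1 = P * (s + 1) * m + s := by
          have : (1 + P * m) * (s + 1) = P * (s + 1) * m + s + 1 := by ring
          omega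
        have e2 : (1 + P * m) * s - 1 = P * s * m + (s - 1) := by
          have : (1 + P * m) * s = P * s * m + s := by ring
          omega
        rw [e1, e2]
      rw [sum_congr rfl h1, sum_comm, sum_filter]
      apply sum_congr rfl
      intro s hs
      rw [hSS, mem_Ico] at hs
      split_ifs with hcop
      · rfl
      · apply sum_eq_zero
        intro m hm
        have hm' := mem_Ico.1 hm
        have hPm : P ≤ P * m := Nat.le_mul_of_pos_right _ (by omega)
        have hdP' := Nat.le_of_dvd hP1 hdP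
        have h9 : P * m ≤ P * s * m := Nat.mul_le_mul_right _ (Nat.le_mul_of_pos_right _ hs.1)
        rw [sub_eq_zero]
        norm_cast
        have hle : P * s * m + (s - 1) ≤ P * (s + 1) * m + s := by
          have : P * s * m ≤ P * (s + 1) * m :=
            Nat.mul_le_mul_right _ (Nat.mul_le_mul_left _ (by omega))
          omega
        have hPPM : P ≤ P * M := Nat.le_mul_of_pos_right _ (by omega)
        refine col_zero (d + 1) d s hd1 (by omega) hcop _ _ ?_ (min_le_min_right X hle)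
        rw [le_min_iff]
        constructor <;> omega
    have hcol2 : |∑ m ∈ Ico M (2 * M), (row X (1 + P * m) d : ℝ) -
        (∑ s ∈ SS.filter (fun s => Nat.Coprime (s ^ 2 + 1) d), ms s) / cls d| ≤
        49 * δ * (M * G) / cls d := by
      rw [hcol, sum_div, ← sum_sub_distrib]
      have h1 : ∀ s ∈ SS.filter (fun s => Nat.Coprime (s ^ 2 + 1) d),
          |∑ m ∈ Ico M (2 * M), ((cnt (min (P * (s + 1) * m + s) X) d s : ℝ) -
            cnt (min (P * s * m + (s - 1)) X) d s) - ms s / cls d| ≤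
          (6 * M * δ * (cnt (min (5 * (P * M * s)) X) 1 0 / s) + 6 * G) / cls d := by
        intro s hs
        rw [mem_filter, hSS, mem_Ico] at hs
        exact col_main X P M d s δ hP1 hM hs.1.1 hd1 hXPM hδ0.le hδ1
          (fun t h1 h2 => ha t h1 h2 d hdP s hs.2)
      refine (abs_sum_le_sum_abs _ _).trans ((sum_le_sum h1).trans ?_)
      rw [← sum_div]
      apply div_le_div_of_nonneg_right _ hc0.le
      have h2 : ∑ s ∈ SS.filter (fun s => Nat.Coprime (s ^ 2 + 1) d),
          (6 * M * δ * (cnt (min (5 * (P * M * s)) X) 1 0 / s) + 6 * G) ≤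
          ∑ s ∈ SS, (6 * M * δ * (cnt (min (5 * (P * M * s)) X) 1 0 / s) + 6 * G) := by
        apply sum_le_sum_of_subset_of_nonneg (filter_subset _ _)
        intro s _ _
        positivity
      refine h2.trans ?_
      rw [sum_add_distrib, ← mul_sum, sum_const, nsmul_eq_mul]
      have h4 : (6 : ℝ) * M * δ * ∑ s ∈ SS, (cnt (min (5 * (P * M * s)) X) 1 0 : ℝ) / s ≤
          6 * M * δ * (8 * G) := mul_le_mul_of_nonneg_left hregs (by positivity)
      have h5 : (SS.card : ℝ) * (6 * G) ≤ δ * (M * G) := by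
        calc (SS.card : ℝ) * (6 * G) ≤ 2 ^ (k + 1) * (6 * G) :=
              mul_le_mul_of_nonneg_right hcardS (by positivity)
          _ = (6 * 2 ^ (k + 1)) * G := by ring
          _ ≤ (δ * M) * G := mul_le_mul_of_nonneg_right hk hG0.le
          _ = δ * (M * G) := by ring
      linarith
    -- combination
    have h6 : |(∑ s ∈ SS.filter (fun s => Nat.Coprime (s ^ 2 + 1) d), ms s) / cls d -
        M * (G / d)| ≤ 5 * δ * (M * (G / d)) + 49 * δ * (M * G) / cls d := by
      rw [abs_le] at hrow hcol2 ⊢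
      constructor <;> linarith [hrow.1, hrow.2, hcol2.1, hcol2.2]
    have h7 : ∑ s ∈ SS.filter (fun s => Nat.Coprime (s ^ 2 + 1) d), ms s - V * (M * G) =
        cls d * ((∑ s ∈ SS.filter (fun s => Nat.Coprime (s ^ 2 + 1) d), ms s) / cls d -
        M * (G / d)) := by
      rw [mul_sub, mul_div_cancel₀ _ hc0.ne', hcls]
      field_simp
    rw [h7, abs_mul, abs_of_pos hc0]
    calc (cls d : ℝ) * _ ≤ cls d * (5 * δ * (M * (G / d)) + 49 * δ * (M * G) / cls d) :=
          mul_le_mul_of_nonneg_left h6 hc0.le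
      _ = 5 * δ * (M * G) * (cls d / d) + 49 * δ * (M * G) := by field_simp
      _ ≤ 5 * δ * (M * G) * 1 + 49 * δ * (M * G) := by
          apply add_le_add_left
          apply mul_le_mul_of_nonneg_left _ (by positivity)
          rw [div_le_one (by linarith)]
          exact hcd
      _ = 54 * δ * (M * G) := by ring
  -- inclusion and exclusion
  have hz0 := incl_excl z hz N SS (by
    intro s hs'
    rw [hSS, mem_Ico] at hs'
    refine lt_of_lt_of_le ?_ hs
    have h1 : (s : ℝ) + 1 ≤ 2 ^ (k + 1) := by exact_mod_cast hs'.2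
    have h2 : (1 : ℝ) ≤ s := by exact_mod_cast hs'.1
    nlinarith) ms
  have hmain := incl_excl_main z N hN hwin
  have hMG : 0 < M * G := by positivity
  have h1 : |∑ J ∈ (range N).powerset, (-1 : ℝ) ^ J.card *
      (∑ s ∈ SS.filter (fun s => Nat.Coprime (s ^ 2 + 1) (PJ z N J)), ms s -
        (∏ j ∈ J, ∏ p ∈ win z N j, lf p) * (M * G))| ≤ 2 ^ N * (54 * δ * (M * G)) := by
    refine (abs_sum_le_sum_abs _ _).trans ?_
    have h2 : ∀ J ∈ (range N).powerset, |(-1 : ℝ) ^ J.card *
      (∑ s ∈ SS.filter (fun s => Nat.Coprime (s ^ 2 + 1) (PJ z N J)), ms s -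
        (∏ j ∈ J, ∏ p ∈ win z N j, lf p) * (M * G))| ≤ 54 * δ * (M * G) := by
      intro J hJ
      rw [abs_mul, abs_pow, abs_neg, abs_one, one_pow, one_mul]
      exact key J hJ
    refine (sum_le_card_nsmul _ _ _ h2).trans ?_
    rw [card_powerset, card_range, nsmul_eq_mul]
    push_cast
    exact le_refl _
  simp_rw [mul_sub] at h1
  rw [sum_sub_distrib, hz0, zero_sub, abs_neg] at h1
  have h2 : ∑ J ∈ (range N).powerset, (-1 : ℝ) ^ J.card *
      ((∏ j ∈ J, ∏ p ∈ win z N j, lf p) * (M * G)) =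
      (∑ J ∈ (range N).powerset, (-1 : ℝ) ^ J.card *
      ∏ j ∈ J, ∏ p ∈ win z N j, lf p) * (M * G) := by
    rw [sum_mul]
    apply sum_congr rfl
    intro J _
    ring
  rw [h2] at h1
  have h3' := (le_abs_self _).trans h1
  have h4 : (1 / (4 * N : ℝ)) ^ N * (M * G) ≤ (2 ^ N * (54 * δ)) * (M * G) := by
    calc _ ≤ _ := mul_le_mul_of_nonneg_right hmain hMG.le
      _ ≤ _ := h3'
      _ = _ := by ring
  exact le_of_mul_le_mul_right h4 hMG

end Pool.Agent.K4H14.FG
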