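import Pool.Agent.Y781.JR.Dens
import Pool.Agent.K4H14.FG.Adm

/-!
Windows of primes.
-/

set_option autoImplicit false

namespace Pool.Agent.K4H14.FG

open Finset Filter Topology

/-- the exponents of the windows -/
noncomputable def th (N j : ℕ) : ℝ := 1 / 2 + j / (2 * N)

/-- the `j`-th window of primes -/
noncomputable def win (z : ℝ) (N j : ℕ) : Finset ℕ :=
  (Ico ⌈z ^ th N j⌉₊ ⌈z ^ th N (j + 1)⌉₊).filter Nat.Prime

theorem dens_lf (z : ℝ) : Pool.Agent.Y882.JR.dens 1 z = ∏ p ∈ (range ⌈z⌉₊).filter Nat.Prime, lf p := by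
  unfold Pool.Agent.Y882.JR.dens
  apply prod_congr rfl
  intro p _
  unfold lf rt
  congr 4
  ext m
  constructor
  · intro h; exact_mod_cast h
  · intro h; exact_mod_cast h

theorem th_mono (N : ℕ) {i j : ℕ} (h : i ≤ j) : th N i ≤ th N j := by
  unfold th
  have : (i : ℝ) ≤ j := by exact_mod_cast h
  have h2 : (i : ℝ) / (2 * N) ≤ j / (2 * N) := div_le_div_of_nonneg_right this (by positivity)
  linarith

theorem th_top (N : ℕ) (hN : 1 ≤ N) : th N N = 1 := by
  unfold th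
  have : (N : ℝ) ≠ 0 := by exact_mod_cast (by omega : N ≠ 0)
  field_simp
  norm_num

theorem th_half (N j : ℕ) : 1 / 2 ≤ th N j := by
  unfold th
  have : (0 : ℝ) ≤ (j : ℝ) / (2 * N) := by positivity
  linarith

theorem win_prod (z : ℝ) (hz : 1 ≤ z) (N j : ℕ) :
    Pool.Agent.Y882.JR.dens 1 (z ^ th N (j + 1)) = Pool.Agent.Y882.JR.dens 1 (z ^ th N j) * ∏ p ∈ win z N j, lf p := by
  rw [dens_lf, dens_lf, win, ← prod_union]
  · congr 1
    ext p
    have h1 : ⌈z ^ th N j⌉₊ ≤ ⌈z ^ th N (j + 1)⌉₊ :=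
      Nat.ceil_mono (Real.rpow_le_rpow_of_exponent_le hz (th_mono N (Nat.le_succ j)))
    simp only [mem_union, mem_filter, mem_range, mem_Ico]
    constructor
    · rintro ⟨h2, h3⟩
      rcases Nat.lt_or_ge p ⌈z ^ th N j⌉₊ with h | h
      · exact Or.inl ⟨h, h3⟩
      · exact Or.inr ⟨⟨h, h2⟩, h3⟩
    · rintro (⟨h2, h3⟩ | ⟨h2, h3⟩)
      · exact ⟨by omega, h3⟩
      · exact ⟨h2.2, h3⟩
  · rw [disjoint_left]
    intro p h1 h2
    rw [mem_filter, mem_range] at h1
    rw [mem_filter, mem_Ico] at h2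
    omega

theorem win_small (N : ℕ) (hN : 1 ≤ N) (j : ℕ) (hj : j < N) :
    ∀ᶠ z : ℝ in atTop, ∏ p ∈ win z N j, lf p ≤ 1 - 1 / (4 * N) := by
  have hns : ¬ IsSquare (-(1 : ℤ)) := by
    rintro ⟨r, hr⟩
    nlinarith [mul_self_nonneg r]
  obtain ⟨C, hC, -, hlim⟩ := Pool.Agent.Y781.JR.t 1 hns
  set L := C * Real.exp (-Real.eulerMascheroniConstant) with hL
  have hL0 : 0 < L := mul_pos hC (Real.exp_pos _)
  have hNr : (1 : ℝ) ≤ N := by exact_mod_cast hN
  have hlim' : ∀ θ : ℝ, 0 < θ → Tendsto (fun z : ℝ => Pool.Agent.Y882.JR.dens 1 (z ^ θ) * Real.log z) atTop (𝓝 (L / θ)) := by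
    intro θ hθ
    have h1 := (hlim.comp (tendsto_rpow_atTop hθ)).div_const θ
    refine h1.congr' ?_
    filter_upwards [eventually_gt_atTop (1 : ℝ)] with z hz
    simp only [Function.comp]
    rw [Real.log_rpow (by linarith)]
    field_simp
  have h0 : ∀ i, 0 < th N i := fun i => lt_of_lt_of_le (by norm_num) (th_half N i)
  have h1 := (hlim' _ (h0 (j + 1))).div (hlim' _ (h0 j)) (div_pos hL0 (h0 j)).ne'
  have h2 : (L / th N (j + 1)) / (L / th N j) < 1 - 1 / (4 * N) := by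
    have h3 : (L / th N (j + 1)) / (L / th N j) = th N j / th N (j + 1) := by
      have := h0 j
      have := h0 (j + 1)
      field_simp
    rw [h3, div_lt_iff₀ (h0 _)]
    have h4 : th N (j + 1) = th N j + 1 / (2 * N) := by
      unfold th
      push_cast
      ring
    have h5 : th N (j + 1) ≤ 1 := by
      rw [← th_top N hN]
      exact th_mono N hj
    have h6 : (0 : ℝ) < 1 / (4 * N) := by positivity
    have h7 : (1 : ℝ) / (2 * N) = 2 * (1 / (4 * N)) := by field_simp; norm_num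
    have h8 := mul_nonneg h6.le (sub_nonneg.2 h5)
    rw [h4, h7] at h8 ⊢
    nlinarith
  filter_upwards [h1.eventually_lt_const h2, eventually_gt_atTop (1 : ℝ)] with z hz hz1
  have hlog : 0 < Real.log z := Real.log_pos hz1
  have hd : 0 < Pool.Agent.Y882.JR.dens 1 (z ^ th N j) := by
    rw [dens_lf]
    exact prod_pos (fun p hp => lf_pos p (mem_filter.1 hp).2)
  simp only [Pi.div_apply] at hz
  rw [mul_div_mul_right _ _ hlog.ne', win_prod z hz1.le N j, mul_div_cancel_left₀ _ hd.ne'] at hz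
  exact hz.le

end Pool.Agent.K4H14.FG
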