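import Pool.Agent.K4H14.FG.Adm

/-!
A lower bound for the number of the primes, if few classes are exceptional.
-/

set_option autoImplicit false

namespace Pool.Agent.K4H14.FG

open Finset Filter

theorem polylog (a : ℕ) (C η : ℝ) (hη : 0 < η) :
    ∀ᶠ x : ℕ in atTop, C * (2 * Real.log x) ^ a ≤ (x : ℝ) ^ η := by
  have h1 := isLittleO_log_rpow_rpow_atTop (a : ℝ) hη
  have h2 := (h1.const_mul_left (|C| * 2 ^ a)).bound (show (0 : ℝ) < 1 by norm_num)
  have h3 := tendsto_natCast_atTop_atTop (R := ℝ) |>.eventually h2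
  filter_upwards [h3, eventually_ge_atTop 1] with x hx hx1
  have hx0 : (1 : ℝ) ≤ x := by exact_mod_cast hx1
  have hl : 0 ≤ Real.log x := Real.log_nonneg hx0
  rw [one_mul, Real.norm_eq_abs, Real.norm_eq_abs, abs_of_nonneg (by positivity : (0 : ℝ) ≤ (x : ℝ) ^ η),
    Real.rpow_natCast] at hx
  have h4 : |C| * 2 ^ a * Real.log x ^ a ≤ (x : ℝ) ^ η := (le_abs_self _).trans hx
  calc C * (2 * Real.log x) ^ a ≤ |C| * (2 * Real.log x) ^ a :=
        mul_le_mul_of_nonneg_right (le_abs_self C) (by positivity)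
    _ = |C| * 2 ^ a * Real.log x ^ a := by rw [mul_pow]; ring
    _ ≤ _ := h4

/-- number of prime factors -/
theorem omega_le (q : ℕ) (hq : 1 ≤ q) (L : ℝ) (hL : Real.log q ≤ L) :
    (q.primeFactors.card : ℝ) ≤ 3 / 2 * L := by
  have h1 := two_pow_card q hq
  have h2 : (2 : ℝ) ^ q.primeFactors.card ≤ q := by exact_mod_cast h1
  have h3 := Real.log_le_log (by positivity) h2
  rw [Real.log_pow] at h3
  have h4 := Real.log_two_gt_d9
  have h5 : (0 : ℝ) ≤ q.primeFactors.card := Nat.cast_nonneg _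
  nlinarith

theorem cls_ge (q : ℕ) (hq : 1 ≤ q) (L : ℝ) (hL : Real.log q ≤ L) (hL6 : 6 ≤ L) :
    (q : ℝ) / (4 * L ^ 2) ≤ cls q / 3 := by
  have h1 := omega_le q hq L hL
  have h2 := cls_low q hq
  set w : ℝ := (q.primeFactors.card : ℝ) with hw
  have hw0 : 0 ≤ w := by rw [hw]; exact Nat.cast_nonneg _
  have h3 : (w + 2) * (w + 3) ≤ 4 * L ^ 2 := by nlinarith
  have h4 : (q : ℝ) * (3 / (4 * L ^ 2)) ≤ cls q := by
    refine le_trans ?_ h2
    apply mul_le_mul_of_nonneg_left _ (Nat.cast_nonneg q)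
    exact div_le_div_of_nonneg_left (by norm_num) (by positivity) h3
  have h5 : (q : ℝ) / (4 * L ^ 2) = (q : ℝ) * (3 / (4 * L ^ 2)) / 3 := by ring
  rw [h5]
  linarith

open Classical in
/-- the exceptional classes modulo `q` -/
noncomputable def bd (δ : ℝ) (X q : ℕ) : Finset ℕ := (range q).filter (fun a : ℕ =>
  Nat.Coprime (a ^ 2 + 1) q ∧
    ¬ |(cnt X q a : ℝ) - cnt X 1 0 / cls q| ≤ δ * (cnt X 1 0 / cls q))

open Classical in
/-- the moduli -/
noncomputable def mo (B X : ℕ) : Finset ℕ :=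
  (Icc 1 X).filter (fun q : ℕ => (q : ℝ) * Real.log X ^ B ≤ X)

theorem bd_card (δ : ℝ) (hδ : δ < 1) (X q : ℕ) (hq : 1 ≤ q) (hG : 0 < cnt X 1 0) :
    (cls q : ℝ) - cnt X 1 0 ≤ (bd δ X q).card := by
  classical
  have hc : (0 : ℝ) < cls q := by exact_mod_cast cls_pos q hq
  have hGr : (0 : ℝ) < cnt X 1 0 := by exact_mod_cast hG
  have h1 : cls q ≤ (bd δ X q).card + ((range q).filter (fun a => cnt X q a ≠ 0)).card := by
    rw [cls]
    refine le_trans (card_le_card ?_) (card_union_le _ _)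
    intro a ha
    rw [mem_filter] at ha
    rw [mem_union]
    by_cases h : cnt X q a = 0
    · left
      unfold bd
      rw [mem_filter]
      refine ⟨ha.1, ha.2, ?_⟩
      rw [h, Nat.cast_zero, zero_sub, abs_neg, abs_of_pos (by positivity)]
      have : 0 < (cnt X 1 0 : ℝ) / cls q := by positivity
      nlinarith
    · right
      rw [mem_filter]
      exact ⟨ha.1, h⟩
  have h2 : ((range q).filter (fun a => cnt X q a ≠ 0)).card ≤ cnt X 1 0 := by
    rw [← sum_cnt X q hq, card_eq_sum_ones, sum_filter]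
    apply sum_le_sum
    intro a _
    split_ifs with h
    · omega
    · omega
  have h3 : (cls q : ℝ) ≤ (bd δ X q).card + cnt X 1 0 := by exact_mod_cast h1.trans (by omega)
  linarith

theorem lowG (B : ℕ) (ε : ℝ) (hε : 0 < ε) :
    ∀ᶠ X : ℕ in atTop, ∀ δ : ℝ, δ < 1 → 0 < cnt X 1 0 →
      (∑ q ∈ mo B X, ((bd δ X q).card : ℝ)) < (X : ℝ) ^ (2 - ε) →
      (X : ℝ) / Real.log X ^ (B + 3) ≤ cnt X 1 0 := by
  have hlog : Tendsto (fun X : ℕ => Real.log X) atTop atTop :=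
    Real.tendsto_log_atTop.comp tendsto_natCast_atTop_atTop
  filter_upwards [hlog.eventually_ge_atTop 24, polylog (2 * B + 2) 144 ε hε, eventually_ge_atTop 1,
    polylog B 4 1 one_pos] with X hL hp hX1 hp2 δ hδ hG hsum
  by_contra hc
  push Not at hc
  set L := Real.log X with hLdef
  have hL0 : 0 < L := by linarith
  have hXr : (1 : ℝ) ≤ X := by exact_mod_cast hX1
  have hLB : (1 : ℝ) ≤ L ^ B := one_le_pow₀ (by linarith)
  set Q : ℕ := ⌊(X : ℝ) / L ^ B⌋₊ with hQ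
  have hQle : (Q : ℝ) ≤ X / L ^ B := Nat.floor_le (by positivity)
  have hQlt : (X : ℝ) / L ^ B < Q + 1 := Nat.lt_floor_add_one _
  have hbig : (4 : ℝ) ≤ X / L ^ B := by
    rw [le_div_iff₀ (by positivity)]
    rw [Real.rpow_one] at hp2
    refine le_trans ?_ hp2
    apply mul_le_mul_of_nonneg_left _ (by norm_num)
    exact pow_le_pow_left₀ hL0.le (by linarith) B
  have hsub : Ioc (Q / 2) Q ⊆ mo B X := by
    intro q hq
    rw [mem_Ioc] at hq
    unfold mo
    rw [mem_filter, mem_Icc]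
    have h1 : (q : ℝ) ≤ X / L ^ B := le_trans (by exact_mod_cast hq.2) hQle
    have h2 : (q : ℝ) * L ^ B ≤ X := by rwa [le_div_iff₀ (by positivity)] at h1
    refine ⟨⟨by omega, ?_⟩, h2⟩
    have : (q : ℝ) ≤ X := by nlinarith [Nat.cast_nonneg (α := ℝ) q]
    exact_mod_cast this
  have h1 : ∀ q ∈ Ioc (Q / 2) Q, (X : ℝ) / (24 * L ^ (B + 2)) ≤ (bd δ X q).card := by
    intro q hq
    rw [mem_Ioc] at hq
    have hq1 : 1 ≤ q := by omega
    refine le_trans ?_ (bd_card δ hδ X q hq1 hG)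
    have hqX : (q : ℝ) ≤ X := by
      have h2 : (q : ℝ) ≤ X / L ^ B := le_trans (by exact_mod_cast hq.2) hQle
      exact h2.trans (div_le_self (by linarith) hLB)
    have h3 := cls_ge q hq1 L (Real.log_le_log (by exact_mod_cast hq1) hqX) (by linarith)
    have h4 : (X : ℝ) / L ^ B / 3 ≤ q := by
      have h5 : (Q : ℝ) + 1 ≤ 2 * q := by exact_mod_cast (by omega : Q + 1 ≤ 2 * q)
      have h6 : (X : ℝ) / L ^ B ≤ 2 * q := by linarith
      linarith [Nat.cast_nonneg (α := ℝ) q]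
    have h5 : (X : ℝ) / (4 * L ^ (B + 2)) ≤ cls q := by
      calc (X : ℝ) / (4 * L ^ (B + 2)) = 3 * ((X : ℝ) / L ^ B / 3 / (4 * L ^ 2)) := by
            rw [pow_add]
            field_simp
        _ ≤ 3 * ((q : ℝ) / (4 * L ^ 2)) := by
            apply mul_le_mul_of_nonneg_left _ (by norm_num)
            exact div_le_div_of_nonneg_right h4 (by positivity)
        _ ≤ cls q := by linarith
    have h6 : (X : ℝ) / L ^ (B + 3) ≤ (X : ℝ) / (24 * L ^ (B + 2)) := by
      apply div_le_div_of_nonneg_left (by linarith) (by positivity)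
      have h8 : L ^ (B + 3) = L ^ (B + 2) * L := by ring
      rw [h8]
      have h7 := mul_nonneg (pow_pos hL0 (B + 2)).le (sub_nonneg.2 hL)
      linarith
    have h7 : (X : ℝ) / (4 * L ^ (B + 2)) = 6 * ((X : ℝ) / (24 * L ^ (B + 2))) := by
      field_simp
      norm_num
    have h8 : 0 ≤ (X : ℝ) / (24 * L ^ (B + 2)) := by positivity
    linarith
  have h2 : ((Ioc (Q / 2) Q).card : ℝ) * ((X : ℝ) / (24 * L ^ (B + 2))) ≤
      ∑ q ∈ mo B X, ((bd δ X q).card : ℝ) := by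
    have h3 := card_nsmul_le_sum _ _ _ h1
    rw [nsmul_eq_mul] at h3
    refine h3.trans (sum_le_sum_of_subset_of_nonneg hsub (fun _ _ _ => Nat.cast_nonneg _))
  have h3 : (X : ℝ) / L ^ B / 3 ≤ ((Ioc (Q / 2) Q).card : ℝ) := by
    rw [Nat.card_Ioc]
    have h4 : (Q : ℝ) ≤ 2 * ((Q - Q / 2 : ℕ) : ℝ) := by exact_mod_cast (by omega : Q ≤ 2 * (Q - Q / 2))
    linarith
  have h4 : (X : ℝ) ^ (2 - ε) ≤ (X : ℝ) / L ^ B / 3 * ((X : ℝ) / (24 * L ^ (B + 2))) := by
    have h5 : (X : ℝ) / L ^ B / 3 * ((X : ℝ) / (24 * L ^ (B + 2))) = X ^ 2 / (72 * L ^ (2 * B + 2)) := by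
      field_simp
      ring
    rw [h5, le_div_iff₀ (by positivity), Real.rpow_sub (by linarith), div_mul_eq_mul_div,
      div_le_iff₀ (by positivity), Real.rpow_two]
    apply mul_le_mul_of_nonneg_left _ (by positivity)
    refine le_trans ?_ hp
    rw [mul_pow]
    have h6 : (1 : ℝ) ≤ 2 ^ (2 * B + 2) := one_le_pow₀ (by norm_num)
    nlinarith [pow_pos hL0 (2 * B + 2)]
  have h5 : (X : ℝ) / L ^ B / 3 * ((X : ℝ) / (24 * L ^ (B + 2))) ≤
      ((Ioc (Q / 2) Q).card : ℝ) * ((X : ℝ) / (24 * L ^ (B + 2))) :=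
    mul_le_mul_of_nonneg_right h3 (by positivity)
  linarith

end Pool.Agent.K4H14.FG
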